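import Mathlib
import Pool.Agent.W17.AB.Fin

set_option autoImplicit false

namespace Pool.Agent.Results.MP_dc323a_nt.ExceptionalSetTwelveElevenths

open Pool.Agent.W17.AB

/-- `S` contains exactly one Gaussian prime from each associate class of Gaussian primes
dividing `x` -/
def IsPrimeSystem (S : Finset GaussianInt) (x : GaussianInt) : Prop :=
  (∀ Q ∈ S, Prime Q ∧ Q ∣ x) ∧
  (∀ Q : GaussianInt, Prime Q → Q ∣ x → ∃ R ∈ S, Associated Q R) ∧
  (∀ Q ∈ S, ∀ R ∈ S, Associated Q R → Q = R)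

/-- the largest absolute value of the members of a triple -/
noncomputable def height (t : GaussianInt × GaussianInt × GaussianInt) : ℝ :=
  max ‖GaussianInt.toComplex t.1‖
    (max ‖GaussianInt.toComplex t.2.1‖ ‖GaussianInt.toComplex t.2.2‖)

/-- The coprime triples `a + b = c` of nonzero Gaussian integers with `max (|a|, |b|, |c|) ≤ X`
and `rad (abc) ≤ B * max (|a|, |b|, |c|) ^ lam`. -/
def Exc (B lam X : ℝ) : Set (GaussianInt × GaussianInt × GaussianInt) :=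
  {t | t.1 ≠ 0 ∧ t.2.1 ≠ 0 ∧ t.2.2 ≠ 0 ∧ t.1 + t.2.1 = t.2.2 ∧ IsCoprime t.1 t.2.1 ∧
    height t ≤ X ∧
    ∃ S : Finset GaussianInt, IsPrimeSystem S (t.1 * t.2.1 * t.2.2) ∧
      ∏ Q ∈ S, ‖GaussianInt.toComplex Q‖ ≤ B * height t ^ lam}

theorem height_sq (t : GaussianInt × GaussianInt × GaussianInt) :
    height t ^ 2 = (mx t : ℝ) := by
  have key : ∀ x y : ℝ, 0 ≤ x → 0 ≤ y → (max x y) ^ 2 = max (x ^ 2) (y ^ 2) := by
    intro x y hx hy
    rcases le_total x y with h | h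
    · rw [max_eq_right h, max_eq_right (pow_le_pow_left₀ hx h 2)]
    · rw [max_eq_left h, max_eq_left (pow_le_pow_left₀ hy h 2)]
  unfold height mx
  push_cast
  rw [key _ _ (norm_nonneg _) (le_max_of_le_left (norm_nonneg _)),
    key _ _ (norm_nonneg _) (norm_nonneg _), nm_real, nm_real, nm_real]

theorem height_nonneg (t : GaussianInt × GaussianInt × GaussianInt) : 0 ≤ height t :=
  le_max_of_le_left (norm_nonneg _)

/-- members of `Exc` in terms of norms -/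
theorem mem_norm {B lam X : ℝ} {t : GaussianInt × GaussianInt × GaussianInt}
    (ht : t ∈ Exc B lam X) : Tri t ∧ mx t ≤ ⌊X ^ 2⌋₊ ∧
      (rad t.1 : ℝ) * rad t.2.1 * rad t.2.2 ≤ B ^ 2 * (mx t : ℝ) ^ lam := by
  obtain ⟨h1, h2, h3, h4, h5, h6, S, ⟨hS1, hS2, hS3⟩, h7⟩ := ht
  have hT : Tri t := ⟨h1, h2, h3, h4, h5⟩
  refine ⟨hT, ?_, ?_⟩
  · apply Nat.le_floor
    rw [← height_sq]
    exact pow_le_pow_left₀ (height_nonneg t) h6 2
  · have e1 := rad_prod_le hT S (fun Q hQ => (hS1 Q hQ).1) hS2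
    have e2 : (rad t.1 : ℝ) * rad t.2.1 * rad t.2.2 ≤ ∏ Q ∈ S, (nm Q : ℝ) := by
      exact_mod_cast e1
    have e3 : ∏ Q ∈ S, (nm Q : ℝ) = (∏ Q ∈ S, ‖GaussianInt.toComplex Q‖) ^ 2 := by
      rw [← Finset.prod_pow]
      exact Finset.prod_congr rfl fun Q _ => nm_real Q
    have e4 : 0 ≤ ∏ Q ∈ S, ‖GaussianInt.toComplex Q‖ :=
      Finset.prod_nonneg fun Q _ => norm_nonneg _
    rw [e3] at e2
    refine e2.trans ((pow_le_pow_left₀ e4 h7 2).trans (le_of_eq ?_))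
    rw [mul_pow, ← height_sq, ← Real.rpow_natCast (height t ^ lam) 2,
      ← Real.rpow_mul (height_nonneg t), ← Real.rpow_natCast (height t) 2,
      ← Real.rpow_mul (height_nonneg t)]
    congr 2
    ring

/-- from norms to absolute values -/
theorem transfer (B lam θ : ℝ) (ε : ℝ) (hθ : 0 ≤ θ) (hε : 0 < ε)
    (h : ∃ C : ℝ, 0 < C ∧ ∀ X : ℕ, 1 ≤ X → ∀ A : Finset (Gi × Gi × Gi),
      (∀ t ∈ A, Tri t ∧ mx t ≤ X ∧
        (rad t.1 : ℝ) * rad t.2.1 * rad t.2.2 ≤ B ^ 2 * (mx t : ℝ) ^ lam) →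
      (A.card : ℝ) ≤ C * (X : ℝ) ^ (θ + ε / 2)) :
    ∃ C : ℝ, ∀ X : ℝ, 1 ≤ X →
      (Exc B lam X).Finite ∧ ((Exc B lam X).ncard : ℝ) ≤ C * X ^ (2 * θ + ε) := by
  obtain ⟨C, hC, H⟩ := h
  refine ⟨C, fun X hX => ?_⟩
  have hX0 : 0 < X := by linarith
  have hX2 : 1 ≤ X ^ 2 := one_le_pow₀ hX
  have hN : 1 ≤ ⌊X ^ 2⌋₊ := Nat.le_floor (by exact_mod_cast hX2)
  have hbound : ∀ E : Finset (GaussianInt × GaussianInt × GaussianInt),
      (E : Set (GaussianInt × GaussianInt × GaussianInt)) ⊆ Exc B lam X →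
      (E.card : ℝ) ≤ C * X ^ (2 * θ + ε) := by
    intro E hE
    refine (H _ hN E fun t ht => mem_norm (hE ht)).trans ?_
    refine mul_le_mul_of_nonneg_left ?_ hC.le
    calc ((⌊X ^ 2⌋₊ : ℕ) : ℝ) ^ (θ + ε / 2) ≤ (X ^ 2) ^ (θ + ε / 2) :=
          Real.rpow_le_rpow (Nat.cast_nonneg _) (Nat.floor_le (by positivity)) (by positivity)
      _ = X ^ (2 * θ + ε) := by
          rw [← Real.rpow_natCast X 2, ← Real.rpow_mul hX0.le]
          congr 1
          push_cast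
          ring
  have hnn : 0 ≤ C * X ^ (2 * θ + ε) := by positivity
  have hfin : (Exc B lam X).Finite := by
    by_contra hinf
    obtain ⟨E, hEV, hEc⟩ := Set.Infinite.exists_subset_card_eq hinf
      (⌊C * X ^ (2 * θ + ε)⌋₊ + 1)
    have h1 := hbound E hEV
    have h2 := Nat.lt_floor_add_one (C * X ^ (2 * θ + ε))
    rw [hEc] at h1
    push_cast at h1
    linarith
  refine ⟨hfin, ?_⟩
  rw [Set.ncard_eq_toFinset_card _ hfin]
  exact hbound hfin.toFinset (by rw [Set.Finite.coe_toFinset])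

/-- level `12/11` -/
theorem part_a (B lam ε : ℝ) (hε : 0 < ε) : ∃ C : ℝ, ∀ X : ℝ, 1 ≤ X →
    (Exc B lam X).Finite ∧
      ((Exc B lam X).ncard : ℝ) ≤ C * X ^ (12 / 11 + 2 * max (lam - 1) 0 + ε) := by
  have hm : 0 ≤ max (lam - 1) 0 := le_max_right _ _
  have h1 : 6 / 11 + max (lam + ε / 4 - 1) 0 ≤ 6 / 11 + max (lam - 1) 0 + ε / 4 := by
    have : max (lam + ε / 4 - 1) 0 ≤ max (lam - 1) 0 + ε / 4 := by
      apply max_le
      · have := le_max_left (lam - 1) 0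
        linarith
      · linarith
    linarith
  have h2 : 0 ≤ 6 / 11 + max (lam + ε / 4 - 1) 0 := by
    have := le_max_right (lam + ε / 4 - 1) 0
    linarith
  obtain ⟨C, hC, H⟩ := count_const lam _ (ε / 4) (by positivity) h2 (cells_a (lam + ε / 4))
    (B ^ 2) (ε / 4) (by positivity)
  have h3 := transfer B lam (6 / 11 + max (lam - 1) 0) ε (by linarith) hε
    ⟨C, hC, fun X hX A hA => (H X hX A hA).trans ?_⟩
  · obtain ⟨C', hC'⟩ := h3
    refine ⟨C', fun X hX => ?_⟩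
    have e : 12 / 11 + 2 * max (lam - 1) 0 + ε = 2 * (6 / 11 + max (lam - 1) 0) + ε := by ring
    rw [e]
    exact hC' X hX
  · have hX1 : (1 : ℝ) ≤ X := by exact_mod_cast hX
    exact mul_le_mul_of_nonneg_left
      (Real.rpow_le_rpow_of_exponent_le hX1 (by linarith)) hC.le

/-- level `8 lam / 7` -/
theorem part_b (B lam ε : ℝ) (h0 : 0 < lam) (h1 : lam ≤ 1) (hε : 0 < ε) :
    ∃ C : ℝ, ∀ X : ℝ, 1 ≤ X →
      (Exc B lam X).Finite ∧ ((Exc B lam X).ncard : ℝ) ≤ C * X ^ (8 * lam / 7 + ε) := by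
  rcases eq_or_lt_of_le h1 with h | h
  · obtain ⟨C, hC⟩ := part_a B lam ε hε
    refine ⟨|C|, fun X hX => ⟨(hC X hX).1, (hC X hX).2.trans ?_⟩⟩
    have e : 12 / 11 + 2 * max (lam - 1) 0 + ε ≤ 8 * lam / 7 + ε := by
      rw [h]
      norm_num
    calc C * X ^ (12 / 11 + 2 * max (lam - 1) 0 + ε)
        ≤ |C| * X ^ (12 / 11 + 2 * max (lam - 1) 0 + ε) :=
          mul_le_mul_of_nonneg_right (le_abs_self C) (Real.rpow_nonneg (by linarith) _)
      _ ≤ |C| * X ^ (8 * lam / 7 + ε) :=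
          mul_le_mul_of_nonneg_left (Real.rpow_le_rpow_of_exponent_le hX e) (abs_nonneg C)
  set η : ℝ := min (ε / 4) (1 - lam) with hη
  have hη0 : 0 < η := lt_min (by positivity) (by linarith)
  have hηε : η ≤ ε / 4 := min_le_left _ _
  have hη1 : lam + η ≤ 1 := by
    have := min_le_right (ε / 4) (1 - lam)
    linarith
  obtain ⟨C, hC, H⟩ := count_const lam _ η hη0 (by linarith)
    (cells_d (lam + η) (by linarith) hη1) (B ^ 2) (ε / 4) (by positivity)
  have h3 := transfer B lam (4 * lam / 7) ε (by linarith) hε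
    ⟨C, hC, fun X hX A hA => (H X hX A hA).trans ?_⟩
  · obtain ⟨C', hC'⟩ := h3
    refine ⟨C', fun X hX => ?_⟩
    have e : 8 * lam / 7 + ε = 2 * (4 * lam / 7) + ε := by ring
    rw [e]
    exact hC' X hX
  · have hX1 : (1 : ℝ) ≤ X := by exact_mod_cast hX
    exact mul_le_mul_of_nonneg_left
      (Real.rpow_le_rpow_of_exponent_le hX1 (by linarith)) hC.le

/-- For all real `B`, `lam > 0` and `ε > 0` there is `C` such that for every `X ≥ 1` the number of
coprime triples `a + b = c` of nonzero Gaussian integers with `max (|a|, |b|, |c|) ≤ X` and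
`rad (abc) ≤ B * max (|a|, |b|, |c|) ^ lam` is at most
`C * X ^ (min (8 lam / 7) (12 / 11) + 2 max (lam - 1, 0) + ε)`. -/
theorem result : ∀ B lam ε : ℝ, 0 < lam → 0 < ε → ∃ C : ℝ, ∀ X : ℝ, 1 ≤ X →
    (Exc B lam X).Finite ∧
      ((Exc B lam X).ncard : ℝ) ≤
        C * X ^ (min (8 * lam / 7) (12 / 11) + 2 * max (lam - 1) 0 + ε) := by
  intro B lam ε h0 hε
  rcases le_total (8 * lam / 7) (12 / 11) with h | h
  · rw [min_eq_left h, max_eq_right (by linarith), mul_zero, add_zero]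
    exact part_b B lam ε h0 (by linarith) hε
  · rw [min_eq_right h]
    exact part_a B lam ε hε

end Pool.Agent.Results.MP_dc323a_nt.ExceptionalSetTwelveElevenths
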